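import Pool.Agent.MP_5f72fe_nt.H25.SpecN

/-! The residue of the Dedekind zeta function of `ℚ(√-n)`, `n ≡ 3 (mod 4)`, `n ≥ 7`. -/

namespace Pool.Agent.MP_5f72fe_nt.H12N

open NumberField NumberField.InfinitePlace NumberField.Units Module
open Pool.Agent.MP_5f72fe_nt.H25N
open scoped Real

variable {K : Type} [Field K] [NumberField K] {n : ℕ} {s : K} {τ : K ≃ₐ[ℚ] K}

theorem real_zero (h : QN4 n s τ) : nrRealPlaces K = 0 := by
  rw [nrRealPlaces_eq_zero_iff]
  refine ⟨fun v => ?_⟩
  rw [← not_isReal_iff_isComplex]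
  intro hv
  have h1 := congrArg (embedding_of_isReal hv) h.sq
  rw [map_pow, map_neg, map_natCast] at h1
  have h2 : (7 : ℝ) ≤ n := by exact_mod_cast h.md.2
  nlinarith [sq_nonneg (embedding_of_isReal hv s)]

theorem complex_one (h : QN4 n s τ) : nrComplexPlaces K = 1 := by
  have h1 := card_add_two_mul_card_eq_rank K
  rw [real_zero h, h.rank] at h1
  omega

theorem reg_one (h : QN4 n s τ) : regulator K = 1 := by
  classical
  have hc : Fintype.card (InfinitePlace K) = 1 := by
    rw [card_eq_nrRealPlaces_add_nrComplexPlaces, real_zero h, complex_one h]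
  have he : IsEmpty {w : InfinitePlace K // w ≠ dirichletUnitTheorem.w₀} :=
    ⟨fun w => w.2 (Fintype.card_le_one_iff.1 hc.le _ _)⟩
  rw [regulator_eq_det', Matrix.det_isEmpty, abs_one]

theorem tors_two (hu : ∀ x : 𝓞 K, IsUnit x → x = 1 ∨ x = -1) : torsionOrder K = 2 := by
  have hne : (1 : (𝓞 K)ˣ) ≠ -1 := by
    intro h
    have h1 : ((1 : (𝓞 K)ˣ) : 𝓞 K) = ((-1 : (𝓞 K)ˣ) : 𝓞 K) := by rw [← h]
    simp only [Units.val_one, Units.val_neg] at h1
    have h2 : (2 : 𝓞 K) = 0 := by linear_combination h1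
    exact two_ne_zero h2
  have hm : (-1 : (𝓞 K)ˣ) ∈ torsion K := by
    rw [torsion, CommGroup.mem_torsion, isOfFinOrder_iff_pow_eq_one]
    exact ⟨2, two_pos, by simp⟩
  rw [torsionOrder, Nat.card_eq_two_iff]
  refine ⟨1, ⟨-1, hm⟩, fun h => hne (congrArg Subtype.val h), ?_⟩
  rw [Set.eq_univ_iff_forall]
  intro x
  rcases hu (x.1 : 𝓞 K) x.1.isUnit with h | h
  · left
    exact Subtype.ext (Units.ext (by simpa using h))
  · right
    exact Subtype.ext (Units.ext (by simpa using h))

theorem discr_eq (h : QN4 n s τ)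
    (hind : ∀ a b : ℚ, a + b * s = 0 → a = 0 ∧ b = 0)
    (hint : ∀ x : K, IsIntegral ℤ x ↔ ∃ a b : ℤ, x = a + b * ((1 + s) / 2)) :
    discr K = -(n : ℤ) := by
  classical
  have hli : LinearIndependent ℚ ![(1 : K), (1 + s) / 2] := by
    rw [LinearIndependent.pair_iff]
    intro a b hab
    have h1 : ((a + b / 2 : ℚ) : K) + ((b / 2 : ℚ) : K) * s = 0 := by
      rw [Rat.smul_def, Rat.smul_def] at hab
      push_cast
      linear_combination hab
    obtain ⟨h2, h3⟩ := hind _ _ h1
    constructor <;> linarith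
  let b : Basis (Fin 2) ℚ K := basisOfLinearIndependentOfCardEqFinrank hli (by simp [h.rank])
  have hb : (b : Fin 2 → K) = ![(1 : K), (1 + s) / 2] := by
    simp [b]
  have hb0 : b 0 = 1 := by rw [hb]; rfl
  have hb1 : b 1 = (1 + s) / 2 := by rw [hb]; rfl
  have hd : Algebra.discr ℚ b = Algebra.discr ℚ (integralBasis K) := by
    apply Algebra.discr_eq_discr_of_toMatrix_coeff_isIntegral K
    · intro i j
      have hi : IsIntegral ℤ (integralBasis K j) := by
        rw [integralBasis_apply]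
        exact RingOfIntegers.isIntegral_coe _
      obtain ⟨x, y, hxy⟩ := (hint _).1 hi
      have h1 : integralBasis K j = (x : ℚ) • b 0 + (y : ℚ) • b 1 := by
        rw [hxy, hb0, hb1, Rat.smul_def, Rat.smul_def]
        push_cast
        ring
      rw [Basis.toMatrix_apply, h1, map_add, map_smul, map_smul, Basis.repr_self, Basis.repr_self]
      fin_cases i
      · simpa using (isIntegral_algebraMap (R := ℤ) (A := ℚ) (x := x))
      · simpa using (isIntegral_algebraMap (R := ℤ) (A := ℚ) (x := y))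
    · intro i j
      have hi : IsIntegral ℤ (b j) := by
        rw [hint]
        fin_cases j
        · exact ⟨1, 0, by simp [hb0]⟩
        · exact ⟨0, 1, by simp [hb1]⟩
      have h1 : b j = algebraMap (𝓞 K) K ⟨b j, hi⟩ := rfl
      rw [Basis.toMatrix_apply, h1, integralBasis_repr_apply]
      exact isIntegral_algebraMap
  have ht1 : Algebra.trace ℚ K 1 = 2 := by
    have h1 := Algebra.trace_algebraMap (R := ℚ) (S := K) 1
    rw [map_one, h.rank] at h1
    rw [h1]; simp
  have hts : Algebra.trace ℚ K s = 0 := by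
    have h1 := Algebra.trace_eq_of_algEquiv τ s
    rw [h.conj, map_neg] at h1
    linarith
  have e1 : (1 + s) / 2 = (1 / 2 : ℚ) • (1 : K) + (1 / 2 : ℚ) • s := by
    rw [Rat.smul_def, Rat.smul_def]; push_cast; ring
  have e2 : (1 + s) / 2 * ((1 + s) / 2) = ((1 - n) / 4 : ℚ) • (1 : K) + (1 / 2 : ℚ) • s := by
    rw [Rat.smul_def, Rat.smul_def]; push_cast
    linear_combination (1 / 4 : K) * h.sq
  have t1 : Algebra.trace ℚ K ((1 + s) / 2) = 1 := by
    rw [e1, map_add, map_smul, map_smul, ht1, hts]; norm_num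
  have t2 : Algebra.trace ℚ K ((1 + s) / 2 * ((1 + s) / 2)) = (1 - n) / 2 := by
    rw [e2, map_add, map_smul, map_smul, ht1, hts]; simp only [smul_eq_mul]; ring
  have hv : Algebra.discr ℚ b = -(n : ℚ) := by
    rw [Algebra.discr_def, Matrix.det_fin_two]
    simp only [Algebra.traceMatrix_apply, Algebra.traceForm_apply, hb0, hb1, one_mul, mul_one,
      ht1, t1, t2]
    ring
  have h1 : ((discr K : ℤ) : ℚ) = ((-(n : ℤ) : ℤ) : ℚ) := by
    rw [coe_discr, ← hd, hv]; push_cast; ring
  exact_mod_cast h1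

theorem rowINV : OfINV := by
  intro hQ K _ _ n s τ h
  rw [dedekindZeta_residue_def, real_zero h, complex_one h, reg_one h,
    tors_two (hQ.unit K n s τ h), discr_eq h (hQ.rep K n s τ h).2 (hQ.int K n s τ h),
    classNumber, Nat.card_eq_fintype_card]
  have h2 : (7 : ℝ) ≤ n := by exact_mod_cast h.md.2
  have h3 : 0 < √(n : ℝ) := Real.sqrt_pos.2 (by linarith)
  have h4 : |((-(n : ℤ) : ℤ) : ℝ)| = (n : ℝ) := by
    push_cast
    rw [abs_neg, abs_of_nonneg (by linarith)]
  rw [h4]
  push_cast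
  field_simp

end Pool.Agent.MP_5f72fe_nt.H12N
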