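import Pool.Agent.MP_5f72fe_nt.H25.SpecD
import Pool.Agent.MP_5f72fe_nt.H86.WGEN

/-! Integral forms of weight `d + 3/2` that reduce to the spanning series. -/

namespace Pool.Agent.MP_5f72fe_nt.H12

open Pool.Agent.MP_5f72fe_nt.H3 Pool.Agent.MP_5f72fe_nt.H25 Complex
open Pool.Agent.MP_5f72fe_nt.H86 (Md law46 red_facts)
open scoped Real PowerSeries

theorem wgp_par {V0 V1 : ℤ⟦X⟧} (h0 : Md 4 V0) (h1 : Md 1 V1) :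
    par 0 (cz (V0 + V1)) = cz V0 ∧ par 1 (cz (V0 + V1)) = cz V1 := by
  have key : ∀ n, (n % 2 = 0 → PowerSeries.coeff n V1 = 0) ∧
      (n % 2 = 1 → PowerSeries.coeff n V0 = 0) := fun n =>
    ⟨fun h => by_contra fun h' => by have := h1 n h'; omega,
      fun h => by_contra fun h' => by have := h0 n h'; omega⟩
  constructor <;> funext n <;> simp only [par, cz, map_add] <;> split_ifs with h
  · rw [(key n).1 h, add_zero]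
  · rw [(key n).2 (by omega), Int.cast_zero]
  · rw [(key n).2 h, zero_add]
  · rw [(key n).1 (by omega), Int.cast_zero]

theorem wgp_of (hJ : RowJH) (d : ℕ) (W : ℕ → ℤ⟦X⟧) (hs : Sm (cz (W 0 + W 1))) (h0 : Md 4 (W 0))
    (h1 : Md 1 (W 1)) (hl : ∀ τ : ℂ, 0 < τ.im → ∀ μ < 2, sr (W μ) (-1 / τ) =
      τ ^ d * (-Jh τ ^ 3 * ((sr (W 0) τ + (-1) ^ μ * sr (W 1) τ) / (√2 : ℝ)))) :
    WP d (cz (W 0 + W 1)) := by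
  obtain ⟨e0, e1⟩ := wgp_par h0 h1
  refine ⟨hs, fun n hn => ?_, fun τ hτ μ hμ => ?_⟩
  · by_cases h : PowerSeries.coeff n (W 0) = 0
    · refine Or.inl (h1 n fun h2 => hn ?_)
      simp only [cz, map_add, h, h2, add_zero, Int.cast_zero]
    · exact Or.inr (h0 n h)
  · have e : par μ (cz (W 0 + W 1)) = cz (W μ) := by
      interval_cases μ
      · exact e0
      · exact e1
    have e2 : -I ^ d * Jh τ ^ (2 * d + 3) = τ ^ d * -Jh τ ^ 3 := by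
      have e3 : Jh τ ^ (2 * d + 3) = (Jh τ ^ 2) ^ d * Jh τ ^ 3 := by ring
      have e4 : I ^ d * (-I * τ) ^ d = τ ^ d := by
        rw [← mul_pow, ← mul_assoc, mul_neg, I_mul_I, neg_neg, one_mul]
      rw [e3, hJ.sq]
      linear_combination (-Jh τ ^ 3) * e4
    rw [e, e0, e1, Nat.cast_one, one_mul, e2, mul_assoc]
    exact hl τ hτ μ hμ

/-- the components of `(E₄ W₂ - E₆ W₀) / 3` -/
noncomputable def wgpX (μ : ℕ) : ℤ⟦X⟧ :=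
  (216 * Aa ^ 4 * Kk ^ 3 - 5832 * Aa * Kk ^ 6) * Z1 μ +
    Kk * (4 * Aa ^ 6 + 108 * Aa ^ 3 * Kk ^ 3 - 5832 * Kk ^ 6) * Z0 μ

theorem wgp_sr (hS : RowSER) (hB : RowBASE) (hZ : RowZ) (m : ℕ) :
    Sm (cz (E8 ^ m * W0 0 + E8 ^ m * W0 1)) ∧ Sm (cz (E8 ^ m * wgpX 0 + E8 ^ m * wgpX 1)) ∧
    ∀ τ : ℂ, 0 < τ.im → ∀ μ < 2, sr (E8 ^ m * W0 μ) τ = sr E8 τ ^ m * sr (W0 μ) τ ∧
      sr (E8 ^ m * wgpX μ) τ = sr E8 τ ^ m *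
        ((sr Aa τ * (sr Aa τ ^ 3 + 216 * sr Kk τ ^ 3) * sr (W2 μ) τ -
          (sr Aa τ ^ 6 - 540 * sr Aa τ ^ 3 * sr Kk τ ^ 3 - 5832 * sr Kk τ ^ 6) *
            sr (W0 μ) τ) / 3) := by
  obtain ⟨R, hR, hφ⟩ := hS.ring
  have hA : Aa ∈ R := (hR _).2 hB.sm.2.1
  have hK : Kk ∈ R := (hR _).2 hB.sm.2.2.1
  have hZ0 : ∀ μ < 2, Z0 μ ∈ R := fun μ h => (hR _).2 (hZ.sm μ h).1
  have hZ1 : ∀ μ < 2, Z1 μ ∈ R := fun μ h => (hR _).2 (hZ.sm μ h).2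
  have hE : E8 ∈ R := R.mul_mem hK (R.sub_mem (R.pow_mem hA 3)
    (R.mul_mem (ofNat_mem R 27) (R.pow_mem hK 3)))
  have hW : ∀ μ < 2, W0 μ ∈ R := fun μ h => R.sub_mem (R.mul_mem hA (hZ1 μ h))
    (R.mul_mem (R.mul_mem (ofNat_mem R 3) hK) (hZ0 μ h))
  have hX : ∀ μ < 2, wgpX μ ∈ R := fun μ h =>
    ((216 * ⟨Aa, hA⟩ ^ 4 * ⟨Kk, hK⟩ ^ 3 - 5832 * ⟨Aa, hA⟩ * ⟨Kk, hK⟩ ^ 6) * ⟨Z1 μ, hZ1 μ h⟩ +
      ⟨Kk, hK⟩ * (4 * ⟨Aa, hA⟩ ^ 6 + 108 * ⟨Aa, hA⟩ ^ 3 * ⟨Kk, hK⟩ ^ 3 - 5832 * ⟨Kk, hK⟩ ^ 6) *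
        ⟨Z0 μ, hZ0 μ h⟩ : R).2
  refine ⟨(hR _).1 (R.add_mem (R.mul_mem (R.pow_mem hE m) (hW 0 two_pos))
      (R.mul_mem (R.pow_mem hE m) (hW 1 one_lt_two))),
    (hR _).1 (R.add_mem (R.mul_mem (R.pow_mem hE m) (hX 0 two_pos))
      (R.mul_mem (R.pow_mem hE m) (hX 1 one_lt_two))), fun τ hτ μ hμ => ?_⟩
  obtain ⟨φ, h⟩ := hφ τ hτ
  have h1 : ∀ F, F ∈ R → sr (E8 ^ m * F) τ = sr E8 τ ^ m * sr F τ := fun F hF => by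
    have h2 := h (⟨E8, hE⟩ ^ m * ⟨F, hF⟩)
    rw [map_mul, map_pow, h, h] at h2
    exact h2.symm
  refine ⟨h1 _ (hW μ hμ), ?_⟩
  have h2 := h (⟨Aa, hA⟩ * ⟨Z1 μ, hZ1 μ hμ⟩ - 3 * ⟨Kk, hK⟩ * ⟨Z0 μ, hZ0 μ hμ⟩)
  have h3 := h ((⟨Aa, hA⟩ ^ 3 - 108 * ⟨Kk, hK⟩ ^ 3) * ⟨Z1 μ, hZ1 μ hμ⟩ +
    9 * ⟨Aa, hA⟩ ^ 2 * ⟨Kk, hK⟩ * ⟨Z0 μ, hZ0 μ hμ⟩)
  have h4 := h ((216 * ⟨Aa, hA⟩ ^ 4 * ⟨Kk, hK⟩ ^ 3 - 5832 * ⟨Aa, hA⟩ * ⟨Kk, hK⟩ ^ 6) *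
      ⟨Z1 μ, hZ1 μ hμ⟩ +
      ⟨Kk, hK⟩ * (4 * ⟨Aa, hA⟩ ^ 6 + 108 * ⟨Aa, hA⟩ ^ 3 * ⟨Kk, hK⟩ ^ 3 - 5832 * ⟨Kk, hK⟩ ^ 6) *
        ⟨Z0 μ, hZ0 μ hμ⟩)
  simp only [map_mul, map_pow, map_add, map_sub, map_ofNat] at h2 h3 h4
  simp only [h] at h2 h3 h4
  have h5 : sr (W0 μ) τ = _ := h2.symm
  have h6 : sr (W2 μ) τ = _ := h3.symm
  have h7 : sr (wgpX μ) τ = _ := h4.symm
  rw [h1 _ (hX μ hμ), h5, h6, h7]
  ring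

theorem wgp_red (hI : RowINT) :
    (∀ μ, red (W0 μ) = red (Z1 μ)) ∧ ∀ μ, red (wgpX μ) = red Kk * red (Z0 μ) := by
  have hA : PowerSeries.map (Int.castRingHom (ZMod 3)) Aa = 1 := hI.redA
  have h3 : (3 : (ZMod 3)⟦X⟧) = 0 := by
    rw [← map_ofNat (PowerSeries.C (R := ZMod 3)) 3, show (3 : ZMod 3) = 0 from rfl, map_zero]
  refine ⟨fun μ => ?_, fun μ => ?_⟩
  · simp only [red, W0, map_mul, map_sub, map_ofNat, hA]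
    generalize PowerSeries.map (Int.castRingHom (ZMod 3)) Kk = k
    generalize PowerSeries.map (Int.castRingHom (ZMod 3)) (Z0 μ) = q
    generalize PowerSeries.map (Int.castRingHom (ZMod 3)) (Z1 μ) = t
    linear_combination (-k * q) * h3
  · simp only [red, wgpX, map_mul, map_pow, map_sub, map_add, map_ofNat, hA]
    generalize PowerSeries.map (Int.castRingHom (ZMod 3)) Kk = k
    generalize PowerSeries.map (Int.castRingHom (ZMod 3)) (Z0 μ) = q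
    generalize PowerSeries.map (Int.castRingHom (ZMod 3)) (Z1 μ) = t
    linear_combination ((72 * k ^ 3 - 1944 * k ^ 6) * t +
      k * (1 + 36 * k ^ 3 - 1944 * k ^ 6) * q) * h3

theorem rowWGENP : OfWGENP := by
  intro hS hJ hI hB hN hZ k ⟨i, b⟩
  obtain ⟨s1, s2, hsr⟩ := wgp_sr hS hB hZ (3 * i)
  obtain ⟨r1, -⟩ := red_facts hI
  obtain ⟨r2, r3⟩ := wgp_red hI
  have hA : PowerSeries.map (Int.castRingHom (ZMod 3)) Aa = 1 := hI.redA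
  have mE : Md 0 (E8 ^ (3 * i)) := ((Md.of_sup hI.supE.1).pow _).of_mod (by omega)
  have mA := Md.of_sup hI.supA.1
  have mK := Md.of_sup hI.supK.1
  have him : ∀ τ : ℂ, 0 < τ.im → 0 < (-1 / τ).im := fun τ hτ => by
    have h0 : τ ≠ 0 := fun h => by rw [h] at hτ; simp at hτ
    rw [neg_div, one_div, neg_im, inv_im, neg_div, neg_neg]
    exact div_pos hτ (normSq_pos.2 h0)
  cases b
  · refine ⟨12 * i, _, ⟨6 * i, by ring⟩, wgp_of hJ _ (fun μ => E8 ^ (3 * i) * W0 μ) s1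
      (mE.mul (Md.of_sup hZ.supW.1)) (mE.mul (Md.of_sup hZ.supW.2.1)) fun τ hτ μ hμ => ?_, ?_⟩
    · rw [(hsr _ (him τ hτ) μ hμ).1, (hsr τ hτ 0 two_pos).1, (hsr τ hτ 1 one_lt_two).1,
        hN.lawE τ hτ, hZ.lawW0 τ hτ μ hμ]
      ring
    · unfold red at r1 r2 ⊢
      simp only [ybP, Bool.false_eq_true, if_false, map_mul, map_add, map_pow, r1, r2, hA]
      ring
  · have m1 : Md 0 (216 * Aa ^ 4 * Kk ^ 3 - 5832 * Aa * Kk ^ 6) :=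
      ((((Md.nat 216).mul (mA.pow 4)).mul (mK.pow 3)).of_mod rfl).sub
        ((((Md.nat 5832).mul mA).mul (mK.pow 6)).of_mod rfl)
    have m2 : Md 4 (Kk * (4 * Aa ^ 6 + 108 * Aa ^ 3 * Kk ^ 3 - 5832 * Kk ^ 6)) :=
      mK.mul (r := 4) (s := 0) ((((Md.nat 4).mul (mA.pow 6)).add
        ((((Md.nat 108).mul (mA.pow 3)).mul (mK.pow 3)).of_mod rfl)).sub
        (((Md.nat 5832).mul (mK.pow 6)).of_mod rfl))
    have mX0 : Md 4 (wgpX 0) :=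
      (m1.mul (Md.of_sup hZ.sup1.1)).add (m2.mul (Md.of_sup hZ.sup0.1))
    have mX1 : Md 1 (wgpX 1) :=
      (m1.mul (Md.of_sup hZ.sup1.2.1)).add ((m2.mul (Md.of_sup hZ.sup0.2.1)).of_mod rfl)
    refine ⟨12 * i + 6, _, ⟨6 * i + 3, by ring⟩, wgp_of hJ _ (fun μ => E8 ^ (3 * i) * wgpX μ) s2
      (mE.mul mX0) (mE.mul mX1) fun τ hτ μ hμ => ?_, ?_⟩
    · obtain ⟨l4, l6⟩ := law46 hB τ hτ
      have e : Jh τ ^ 7 = -τ ^ 2 * Jh τ ^ 3 := by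
        rw [show Jh τ ^ 7 = (Jh τ ^ 2) ^ 2 * Jh τ ^ 3 by ring, hJ.sq, mul_pow, neg_sq, I_sq]; ring
      rw [(hsr _ (him τ hτ) μ hμ).2, (hsr τ hτ 0 two_pos).2, (hsr τ hτ 1 one_lt_two).2,
        hN.lawE τ hτ, l4, l6, hZ.lawW0 τ hτ μ hμ, hZ.lawW2 τ hτ μ hμ, e]
      ring
    · unfold red at r1 r3 ⊢
      simp only [ybP, if_true, map_mul, map_add, map_pow, r1, r3, hA]
      ring

end Pool.Agent.MP_5f72fe_nt.H12
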